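import Pool.Agent.Y924.UF.Stm3

/-! # Products of numbers of elements by coded relations (helper74) -/

set_option autoImplicit false

namespace Pool.Agent.Y74.UF

open Pool.Agent.Y924.UF

variable {K : Type}

theorem prj_card {R R' : K → K → Prop} {X Y Z : Set K} (h : Prj R R' X Y Z) :
    X.ncard * Y.ncard = Z.ncard := by
  classical
  have h1 : ∀ c : K, ∃ ab : K × K, c ∈ Z → (ab.1 ∈ X ∧ R c ab.1 ∧
      ∀ a', a' ∈ X → R c a' → a' = ab.1) ∧ (ab.2 ∈ Y ∧ R' c ab.2 ∧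
      ∀ b', b' ∈ Y → R' c b' → b' = ab.2) := by
    intro c
    by_cases hc : c ∈ Z
    · obtain ⟨⟨a, ha⟩, ⟨b, hb⟩⟩ := h.1 c hc
      exact ⟨(a, b), fun _ => ⟨ha, hb⟩⟩
    · exact ⟨(c, c), fun h => absurd h hc⟩
  choose f hf using h1
  have hinj : Set.InjOn f Z := by
    intro c hc c' hc' he
    obtain ⟨c0, _, _, _, hu⟩ := h.2 (f c).1 (f c).2 (hf c hc).1.1 (hf c hc).2.1
    have e1 := hu c hc (hf c hc).1.2.1 (hf c hc).2.2.1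
    have e2 := hu c' hc' (he ▸ (hf c' hc').1.2.1) (he ▸ (hf c' hc').2.2.1)
    rw [e1, e2]
  have himg : f '' Z = X ×ˢ Y := by
    apply Set.Subset.antisymm
    · rintro _ ⟨c, hc, rfl⟩
      exact ⟨(hf c hc).1.1, (hf c hc).2.1⟩
    · rintro ⟨a, b⟩ ⟨ha, hb⟩
      obtain ⟨c, hc, hRa, hRb, _⟩ := h.2 a b ha hb
      refine ⟨c, hc, ?_⟩
      have e1 := (hf c hc).1.2.2 a ha hRa
      have e2 := (hf c hc).2.2.2 b hb hRb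
      exact (Prod.ext e1 e2).symm
  rw [← Set.ncard_prod, ← himg, hinj.ncard_image]

theorem exists_prj {X Y Z : Set K} (hX : X.Finite) (hY : Y.Finite) (hZ : Z.Finite)
    (h : X.ncard * Y.ncard = Z.ncard) : ∃ R R' : K → K → Prop, Prj R R' X Y Z := by
  have hf1 : Finite Z := hZ
  have hf2 : Finite (X ×ˢ Y : Set (K × K)) := hX.prod hY
  have hc : Nat.card Z = Nat.card (X ×ˢ Y : Set (K × K)) := by
    rw [Nat.card_coe_set_eq, Nat.card_coe_set_eq, Set.ncard_prod, h]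
  have f1 : Fintype Z := Fintype.ofFinite _
  have f2 : Fintype (X ×ˢ Y : Set (K × K)) := Fintype.ofFinite _
  rw [Nat.card_eq_fintype_card, Nat.card_eq_fintype_card] at hc
  have e : Z ≃ (X ×ˢ Y : Set (K × K)) := Fintype.equivOfCardEq hc
  refine ⟨fun c a => ∃ hc : c ∈ Z, (e ⟨c, hc⟩).1.1 = a,
    fun c b => ∃ hc : c ∈ Z, (e ⟨c, hc⟩).1.2 = b, ?_, ?_⟩
  · intro c hc
    refine ⟨⟨(e ⟨c, hc⟩).1.1, (e ⟨c, hc⟩).2.1, ⟨hc, rfl⟩, ?_⟩,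
      ⟨(e ⟨c, hc⟩).1.2, (e ⟨c, hc⟩).2.2, ⟨hc, rfl⟩, ?_⟩⟩
    · rintro a' - ⟨_, h'⟩
      exact h'.symm
    · rintro b' - ⟨_, h'⟩
      exact h'.symm
  · intro a b ha hb
    have hs : ∀ (h1 : (e.symm ⟨(a, b), ha, hb⟩).1 ∈ Z),
        e ⟨(e.symm ⟨(a, b), ha, hb⟩).1, h1⟩ = ⟨(a, b), ha, hb⟩ := by
      intro h1
      exact e.apply_symm_apply ⟨(a, b), ha, hb⟩
    refine ⟨(e.symm ⟨(a, b), ha, hb⟩).1, (e.symm ⟨(a, b), ha, hb⟩).2,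
      ⟨(e.symm ⟨(a, b), ha, hb⟩).2, by rw [hs]⟩, ⟨(e.symm ⟨(a, b), ha, hb⟩).2, by rw [hs]⟩, ?_⟩
    rintro c' hc' ⟨_, h1⟩ ⟨_, h2⟩
    have h3 : e ⟨c', hc'⟩ = ⟨(a, b), ha, hb⟩ := Subtype.ext (Prod.ext h1 h2)
    have h4 : (⟨c', hc'⟩ : Z) = e.symm ⟨(a, b), ha, hb⟩ := by
      rw [← h3, Equiv.symm_apply_apply]
    exact congrArg Subtype.val h4

theorem prj_congr {R R' Q Q' : K → K → Prop} {S X Y Z : Set K} (hX : X ⊆ S) (hY : Y ⊆ S)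
    (hZ : Z ⊆ S) (h : ∀ a ∈ S, ∀ b ∈ S, (Q a b ↔ R a b))
    (h' : ∀ a ∈ S, ∀ b ∈ S, (Q' a b ↔ R' a b)) (hP : Prj R R' X Y Z) : Prj Q Q' X Y Z := by
  refine ⟨fun c hc => ?_, fun a b ha hb => ?_⟩
  · obtain ⟨⟨a, ha, hRa, hau⟩, ⟨b, hb, hRb, hbu⟩⟩ := hP.1 c hc
    exact ⟨⟨a, ha, (h c (hZ hc) a (hX ha)).2 hRa, fun a' ha' hq =>
        hau a' ha' ((h c (hZ hc) a' (hX ha')).1 hq)⟩,
      ⟨b, hb, (h' c (hZ hc) b (hY hb)).2 hRb, fun b' hb' hq =>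
        hbu b' hb' ((h' c (hZ hc) b' (hY hb')).1 hq)⟩⟩
  · obtain ⟨c, hc, hRa, hRb, hu⟩ := hP.2 a b ha hb
    exact ⟨c, hc, (h c (hZ hc) a (hX ha)).2 hRa, (h' c (hZ hc) b (hY hb)).2 hRb,
      fun c' hc' h1 h2 => hu c' hc' ((h c' (hZ hc') a (hX ha)).1 h1)
        ((h' c' (hZ hc') b (hY hb)).1 h2)⟩

theorem t_CMUL : Pool.Agent.Y924.UF.S_CODE → Pool.Agent.Y924.UF.S_CMUL := by
  intro hcode p _ X Y Z hX hY hZ
  constructor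
  · rintro ⟨t, u, w, s, s', h⟩
    exact prj_card h
  · intro h
    obtain ⟨R, R', hP⟩ := exists_prj hX hY hZ h
    obtain ⟨t, u, w, hs⟩ := hcode p (X ∪ Y ∪ Z) ((hX.union hY).union hZ)
    obtain ⟨s, hs1⟩ := hs R
    obtain ⟨s', hs2⟩ := hs R'
    exact ⟨t, u, w, s, s', prj_congr (fun x hx => Or.inl (Or.inl hx))
      (fun x hx => Or.inl (Or.inr hx)) (fun x hx => Or.inr hx) hs1 hs2 hP⟩

end Pool.Agent.Y74.UF
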